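import Pool.Agent.H10.GS.Five

set_option autoImplicit false

namespace Pool.Agent.Results.MP_122d63_co.FineSubdivisions

open Pool.Agent.H10.GS

/-- For every loopless triangulation of a closed oriented surface, for `m = 3` and every `m >= 5`,
the dual of its `m`-fold subdivision is 3-edge-colourable. -/
theorem result :
    ∀ (D : Type) [Finite D] (G : Triangulation D), G.Loopless →
      ∀ m : ℕ, m = 3 ∨ 5 ≤ m → (G.subdivide m).DualColourable := by
  intro D _ G hG m hm
  by_cases h3 : m % 3 = 0
  · exact subdivision_by_three D G hG m (by omega) (Nat.dvd_of_mod_eq_zero h3)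
  · exact main_all G hG m (by omega) h3

end Pool.Agent.Results.MP_122d63_co.FineSubdivisions
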